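import Mathlib

set_option autoImplicit false

namespace Pool.Agent.P.MP_1ed635_nt

open MvPolynomial

/-- `T` is a form `l * (a x + b y) ^ d` with `l, a, b` in `K`. -/
def IsSummand (K : Subfield ℂ) (d : ℕ) (T : MvPolynomial (Fin 2) ℂ) : Prop :=
  ∃ l ∈ K, ∃ a ∈ K, ∃ b ∈ K, T = C l * (C a * X 0 + C b * X 1) ^ d

/-- A `K`-representation of `f`, recorded as the multiset `S` of its summands (so two
representations are the same when their summands agree after a reordering); its length is the
cardinality of `S`. -/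
def IsRep (K : Subfield ℂ) (d : ℕ) (f : MvPolynomial (Fin 2) ℂ)
    (S : Multiset (MvPolynomial (Fin 2) ℂ)) : Prop :=
  (∀ T ∈ S, IsSummand K d T) ∧ S.sum = f

/-- A `K`-minimal representation of `f`: no `K`-representation of `f` is shorter. -/
def IsMinRep (K : Subfield ℂ) (d : ℕ) (f : MvPolynomial (Fin 2) ℂ)
    (S : Multiset (MvPolynomial (Fin 2) ℂ)) : Prop :=
  IsRep K d f S ∧ ∀ S', IsRep K d f S' → S.card ≤ S'.card

end Pool.Agent.P.MP_1ed635_nt
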