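import Mathlib

/-
Fermat descent: `w^2 = r^4 + 61 r^2 + 1024` has no rational solution with `r ≠ 0`
(an elliptic curve of conductor 30 and rank 0).
-/

set_option autoImplicit false

namespace Pool.Agent.P.MP_1ed635_nt

theorem pow_split {a b c : ℤ} (k : ℕ) (ha : 0 < a) (hb : 0 < b) (h : IsCoprime a b)
    (he : a * b = c ^ (2 * k)) : ∃ u v : ℤ, 0 < u ∧ 0 < v ∧ a = u ^ (2 * k) ∧ b = v ^ (2 * k) := by
  have aux : ∀ a b : ℤ, 0 < a → IsCoprime a b → a * b = c ^ (2 * k) →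
      ∃ u : ℤ, 0 < u ∧ a = u ^ (2 * k) := by
    intro a b ha h he
    obtain ⟨d, hd⟩ := exists_associated_pow_of_mul_eq_pow' h he
    have h1 : |d| ^ (2 * k) = a := by
      rw [Int.associated_iff] at hd
      have h0 : 0 ≤ d ^ (2 * k) := by rw [pow_mul]; positivity
      have h2 : |d| ^ (2 * k) = d ^ (2 * k) := by rw [pow_mul, pow_mul, sq_abs]
      rcases hd with hd | hd
      · rw [h2, hd]
      · omega
    by_cases hk : k = 0
    · subst hk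
      exact ⟨1, one_pos, by simpa using h1.symm⟩
    refine ⟨|d|, abs_pos.2 ?_, h1.symm⟩
    rintro rfl
    rw [abs_zero, zero_pow (by omega)] at h1
    omega
  obtain ⟨u, hu, hu'⟩ := aux a b ha h he
  obtain ⟨v, hv, hv'⟩ := aux b a hb h.symm (by rw [mul_comm]; exact he)
  exact ⟨u, v, hu, hv, hu', hv'⟩

theorem factor375 {A B N : ℤ} (hA : 0 < A) (hB : 0 < B) (hN : 0 < N) (h : IsCoprime A B)
    (he : A * B = 375 * N ^ 4) : ∃ u v : ℤ, 0 < u ∧ 0 < v ∧ u * v = N ∧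
      ((A = 375 * u ^ 4 ∧ B = v ^ 4) ∨ (A = 125 * u ^ 4 ∧ B = 3 * v ^ 4) ∨
       (A = 3 * u ^ 4 ∧ B = 125 * v ^ 4) ∨ (A = u ^ 4 ∧ B = 375 * v ^ 4)) := by
  have fin : ∀ a b A' B' : ℤ, 0 < a → 0 < b → a * b = 375 → A = a * A' → B = b * B' →
      ∃ u v : ℤ, 0 < u ∧ 0 < v ∧ u * v = N ∧ A = a * u ^ 4 ∧ B = b * v ^ 4 := by
    intro a b A' B' ha hb hab e1 e2
    have hA' : 0 < A' := pos_of_mul_pos_right (e1 ▸ hA : 0 < a * A') ha.le
    have hB' : 0 < B' := pos_of_mul_pos_right (e2 ▸ hB : 0 < b * B') hb.le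
    have hc : IsCoprime A' B' := by
      rw [e1, e2] at h
      exact h.of_mul_left_right.of_mul_right_right
    have hp : A' * B' = N ^ (2 * 2) := by
      have : 375 * (A' * B') = 375 * N ^ (2 * 2) := by rw [← he, e1, e2, ← hab]; ring
      linarith
    obtain ⟨u, v, hu, hv, e3, e4⟩ := pow_split 2 hA' hB' hc hp
    refine ⟨u, v, hu, hv, ?_, by rw [e1, e3], by rw [e2, e4]⟩
    have : (u * v) ^ 4 = N ^ 4 := by rw [mul_pow]; rw [e3, e4] at hp; exact hp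
    exact (pow_left_inj₀ (by positivity) hN.le (by norm_num)).1 this
  have h3 : (3 : ℤ) ∣ A ∨ (3 : ℤ) ∣ B :=
    Int.prime_three.dvd_or_dvd ⟨125 * N ^ 4, by rw [he]; ring⟩
  have p5 : Prime (5 : ℤ) := Int.prime_iff_natAbs_prime.2 (by norm_num)
  have h5 : (125 : ℤ) ∣ A ∨ (125 : ℤ) ∣ B := by
    have hd : (5 : ℤ) ^ 3 ∣ A * B := ⟨3 * N ^ 4, by rw [he]; ring⟩
    by_cases h5A : (5 : ℤ) ∣ A
    · left
      have : ¬ (5 : ℤ) ∣ B := fun h5B => p5.not_isUnit (h.isUnit_of_dvd' h5A h5B)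
      exact p5.pow_dvd_of_dvd_mul_right 3 this hd
    · right
      exact p5.pow_dvd_of_dvd_mul_left 3 h5A hd
  have c : IsCoprime (3 : ℤ) 125 := by norm_num
  rcases h3 with h3 | h3 <;> rcases h5 with h5 | h5
  · obtain ⟨A', e⟩ := c.mul_dvd h3 h5
    obtain ⟨u, v, a1, a2, a3, a4, a5⟩ := fin 375 1 A' B (by norm_num) (by norm_num) (by norm_num)
      (by rw [e]; norm_num) (by ring)
    exact ⟨u, v, a1, a2, a3, Or.inl ⟨a4, by rw [a5]; ring⟩⟩
  · obtain ⟨A', e⟩ := h3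
    obtain ⟨B', e'⟩ := h5
    obtain ⟨u, v, a1, a2, a3, a4, a5⟩ := fin 3 125 A' B' (by norm_num) (by norm_num) (by norm_num)
      e e'
    exact ⟨u, v, a1, a2, a3, Or.inr (Or.inr (Or.inl ⟨a4, a5⟩))⟩
  · obtain ⟨B', e'⟩ := h3
    obtain ⟨A', e⟩ := h5
    obtain ⟨u, v, a1, a2, a3, a4, a5⟩ := fin 125 3 A' B' (by norm_num) (by norm_num) (by norm_num)
      e e'
    exact ⟨u, v, a1, a2, a3, Or.inr (Or.inl ⟨a4, a5⟩)⟩
  · obtain ⟨B', e⟩ := c.mul_dvd h3 h5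
    obtain ⟨u, v, a1, a2, a3, a4, a5⟩ := fin 1 375 A B' (by norm_num) (by norm_num) (by norm_num)
      (by ring) (by rw [e]; norm_num)
    exact ⟨u, v, a1, a2, a3, Or.inr (Or.inr (Or.inr ⟨by rw [a4]; ring, a5⟩))⟩

theorem coprime_of_primes {a b : ℤ} (h : ∀ p : ℤ, Prime p → p ∣ a → p ∣ b → False) :
    IsCoprime a b := by
  refine isCoprime_of_prime_dvd ?_ h
  rintro ⟨rfl, rfl⟩
  exact h 2 Int.prime_two (dvd_zero _) (dvd_zero _)

/-- coprimality of the two factors in the first descent step -/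
theorem cop_step {A B W N : ℤ} (hWN : ∀ p : ℤ, Prime p → p ∣ A → p ∣ W → p ∣ N → False)
    (he : A * B = 375 * N ^ 4) (hd : B - A = W ^ 2 + 122 * N ^ 2) : IsCoprime A B := by
  refine coprime_of_primes fun p hp hA hB => ?_
  have h1 : p ∣ W ^ 2 + 122 * N ^ 2 := hd ▸ dvd_sub hB hA
  have hN : ¬ p ∣ N := by
    intro hN
    refine hWN p hp hA (hp.dvd_of_dvd_pow (n := 2) ?_) hN
    have : p ∣ 122 * N ^ 2 := Dvd.dvd.mul_left (dvd_pow hN (by norm_num)) _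
    exact (dvd_add_left this).1 h1
  have h2 : p ^ 2 ∣ 375 * N ^ 4 := by rw [← he, sq]; exact mul_dvd_mul hA hB
  have h3 : p ^ 2 ∣ 375 :=
    hp.pow_dvd_of_dvd_mul_right 2 (fun h => hN (hp.dvd_of_dvd_pow h)) h2
  have h4 : (5 : ℤ) ∣ p := by
    have h5 : p.natAbs ^ 2 ∣ 375 := by
      have := Int.natAbs_dvd_natAbs.2 h3
      simpa [Int.natAbs_pow] using this
    have h6 : p.natAbs.Prime := Int.prime_iff_natAbs_prime.1 hp
    have h7 : p.natAbs ≤ 20 := by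
      have := Nat.le_of_dvd (by norm_num) h5
      nlinarith
    have h8 : p.natAbs = 5 := by
      generalize p.natAbs = q at h5 h6 h7
      interval_cases q <;> simp_all (config := {decide := true})
    exact Int.natAbs_dvd_natAbs.1 (by rw [h8]; rfl)
  have h5 : (5 : ℤ) ∣ W ^ 2 + 122 * N ^ 2 := h4.trans h1
  have h6 : ((W ^ 2 + 122 * N ^ 2 : ℤ) : ZMod 5) = 0 := (ZMod.intCast_zmod_eq_zero_iff_dvd _ 5).2 h5
  push_cast at h6
  have key : ∀ w n : ZMod 5, w ^ 2 + 122 * n ^ 2 = 0 → n = 0 := by decide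
  have h7 : (5 : ℤ) ∣ N := (ZMod.intCast_zmod_eq_zero_iff_dvd _ 5).1 (key _ _ h6)
  have p5 : Prime (5 : ℤ) := Int.prime_iff_natAbs_prime.2 (by norm_num)
  exact hN ((p5.associated_of_dvd hp h4).symm.dvd.trans h7)

/-- second descent step: `t^2 - s^2 = 4 c u^2` with `c` a power of two -/
theorem second_step {s t u : ℤ} (e : ℕ) (hu : 0 < u) (ht : 0 < t) (hs : Odd s) (ht' : Odd t)
    (hc : IsCoprime s t) (he : t ^ 2 - s ^ 2 = 4 * 2 ^ (e + 1) * u ^ 2) :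
    ∃ i j : ℤ, 0 < i ∧ 0 < j ∧ Odd i ∧ IsCoprime i j ∧ i * j = u ∧
      t = i ^ 2 + 2 ^ (e + 1) * j ^ 2 := by
  have aux : ∀ p q : ℤ, 0 < p → 0 < q → Odd p → IsCoprime p q → p * q = 2 ^ (e + 1) * u ^ 2 →
      ∃ i j : ℤ, 0 < i ∧ 0 < j ∧ Odd i ∧ IsCoprime i j ∧ i * j = u ∧
        p + q = i ^ 2 + 2 ^ (e + 1) * j ^ 2 := by
    intro p q hp hq hpo hpq hm
    have h2 : ¬ (2 : ℤ) ∣ p := by
      obtain ⟨k, hk⟩ := hpo
      omega
    obtain ⟨q', rfl⟩ := Int.prime_two.pow_dvd_of_dvd_mul_left (e + 1) h2 ⟨_, hm⟩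
    have h0 : (0 : ℤ) < 2 ^ (e + 1) := by positivity
    have hq' : 0 < q' := pos_of_mul_pos_right hq h0.le
    have hm' : p * q' = u ^ (2 * 1) := by
      have : 2 ^ (e + 1) * (p * q') = 2 ^ (e + 1) * u ^ 2 := by rw [← hm]; ring
      exact mul_left_cancel₀ h0.ne' this
    have hc' : IsCoprime p q' := hpq.of_mul_right_right
    obtain ⟨i, j, hi, hj, rfl, rfl⟩ := pow_split 1 hp hq' hc' hm'
    refine ⟨i, j, hi, hj, ?_, ?_, ?_, by ring⟩
    · exact (Int.odd_pow' (by norm_num)).1 hpo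
    · exact (IsCoprime.pow_iff (by norm_num) (by norm_num)).1 hc'
    · have : (i * j) ^ 2 = u ^ 2 := by rw [mul_pow]; exact hm'
      exact (pow_left_inj₀ (by positivity) hu.le (by norm_num)).1 this
  obtain ⟨p, hp⟩ : ∃ p, t + s = 2 * p := by
    obtain ⟨a, rfl⟩ := hs
    obtain ⟨b, rfl⟩ := ht'
    exact ⟨a + b + 1, by ring⟩
  obtain ⟨q, hq⟩ : ∃ q, t - s = 2 * q := ⟨p - s, by linarith⟩
  have e1 : t = p + q := by linarith
  have e2 : s = p - q := by linarith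
  have hm : p * q = 2 ^ (e + 1) * u ^ 2 := by
    have : 4 * (p * q) = 4 * (2 ^ (e + 1) * u ^ 2) := by rw [e1, e2] at he; linarith
    linarith
  have hpos : 0 < p * q := by rw [hm]; positivity
  have hp0 : 0 < p := by
    by_contra h
    have : 0 < q := by linarith
    nlinarith
  have hq0 : 0 < q := pos_of_mul_pos_right hpos hp0.le
  have hpq : IsCoprime p q := by
    obtain ⟨a, b, hab⟩ := hc
    exact ⟨a + b, b - a, by rw [← hab, e1, e2]; ring⟩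
  rcases Int.even_or_odd p with h | h
  · have hqo : Odd q := by
      obtain ⟨a, ha⟩ := h
      obtain ⟨b, hb⟩ := ht'
      exact ⟨b - a, by linarith⟩
    obtain ⟨i, j, h1, h2, h3, h4, h5, h6⟩ := aux q p hq0 hp0 hqo hpq.symm (by rw [mul_comm, hm])
    exact ⟨i, j, h1, h2, h3, h4, h5, by linarith⟩
  · obtain ⟨i, j, h1, h2, h3, h4, h5, h6⟩ := aux p q hp0 hq0 h hpq hm
    exact ⟨i, j, h1, h2, h3, h4, h5, by linarith⟩

theorem cop128 {u v a b : ℤ} (h : IsCoprime u v) (ha : Odd a) (c x y z w : ℤ) (hc : c ∣ 128)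
    (h1 : c * u ^ 2 = x * a + y * b) (h2 : c * v ^ 2 = z * a + w * b) : IsCoprime a b := by
  refine coprime_of_primes fun p hp hA hB => ?_
  have d1 : p ∣ c * u ^ 2 := h1 ▸ dvd_add (hA.mul_left _) (hB.mul_left _)
  have d2 : p ∣ c * v ^ 2 := h2 ▸ dvd_add (hA.mul_left _) (hB.mul_left _)
  have hpc : ¬ p ∣ c := by
    intro hpc
    have : p ∣ 2 ^ 7 := hpc.trans hc
    have h2 := (hp.associated_of_dvd Int.prime_two (hp.dvd_of_dvd_pow this)).symm.dvd.trans hA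
    obtain ⟨k, hk⟩ := ha
    omega
  exact hp.not_isUnit (h.isUnit_of_dvd' (hp.dvd_of_dvd_pow ((hp.dvd_or_dvd d1).resolve_left hpc))
    (hp.dvd_of_dvd_pow ((hp.dvd_or_dvd d2).resolve_left hpc)))

theorem caseA : ∀ (k : ℕ) (m n z : ℤ), n.natAbs = k → 0 < n → Odd m → IsCoprime m n →
    z ^ 2 = m ^ 4 + 61 * m ^ 2 * n ^ 2 + 1024 * n ^ 4 → False := by
  intro k
  induction k using Nat.strong_induction_on with
  | _ k ih =>
  intro m n z hk hn hm hc he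
  wlog hz : 0 ≤ z generalizing z
  · exact this (-z) (by rw [← he]; ring) (by linarith)
  obtain ⟨m0, hm0⟩ := hm
  obtain ⟨N, rfl⟩ : ∃ N, n = 2 * N := by
    rcases Int.even_or_odd' n with ⟨N, h | h⟩
    · exact ⟨N, h⟩
    · exfalso
      have := congrArg (Int.cast : ℤ → ZMod 4) he
      rw [hm0, h] at this
      push_cast at this
      have key : ∀ z a b : ZMod 4, z ^ 2 ≠ (2 * a + 1) ^ 4 + 61 * (2 * a + 1) ^ 2 * (2 * b + 1) ^ 2
        + 1024 * (2 * b + 1) ^ 4 := by decide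
      exact key _ _ _ this
  have hN : 0 < N := by linarith
  obtain ⟨z0, hz0⟩ : Odd z := by
    rcases Int.even_or_odd' z with ⟨y, h | h⟩
    · exfalso
      have := congrArg (Int.cast : ℤ → ZMod 2) he
      rw [hm0, h] at this
      push_cast at this
      have key : ∀ z a b : ZMod 2, (2 * z) ^ 2 ≠ (2 * a + 1) ^ 4 + 61 * (2 * a + 1) ^ 2 * (2 * b) ^ 2
        + 1024 * (2 * b) ^ 4 := by decide
      exact key _ _ _ this
    · exact ⟨y, h⟩
  obtain ⟨B, hB⟩ : ∃ B, z + (m ^ 2 + 122 * N ^ 2) = 2 * B :=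
    ⟨z0 + 2 * m0 ^ 2 + 2 * m0 + 1 + 61 * N ^ 2, by rw [hz0, hm0]; ring⟩
  obtain ⟨A, hA⟩ : ∃ A, z - (m ^ 2 + 122 * N ^ 2) = 2 * A :=
    ⟨B - (m ^ 2 + 122 * N ^ 2), by linarith⟩
  have hAB : A * B = 375 * N ^ 4 := by
    have : (2 * A) * (2 * B) = 4 * (375 * N ^ 4) := by rw [← hA, ← hB]; linear_combination he
    linarith
  have hd : B - A = m ^ 2 + 122 * N ^ 2 := by linarith
  have hB0 : 0 < B := by nlinarith [sq_nonneg m, sq_pos_of_pos hN]
  have hA0 : 0 < A := pos_of_mul_pos_left (by rw [hAB]; positivity) hB0.le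
  have hcop : IsCoprime A B := cop_step
    (fun p hp _ h1 h2 => hp.not_isUnit (hc.isUnit_of_dvd' h1 (h2.mul_left 2))) hAB hd
  obtain ⟨u, v, hu, hv, rfl, hcase⟩ := factor375 hA0 hB0 hN hcop hAB
  have huv : IsCoprime u v := by
    rcases hcase with ⟨rfl, rfl⟩ | ⟨rfl, rfl⟩ | ⟨rfl, rfl⟩ | ⟨rfl, rfl⟩
    · exact (IsCoprime.pow_iff (by norm_num) (by norm_num)).1 hcop.of_mul_left_right
    · exact (IsCoprime.pow_iff (by norm_num) (by norm_num)).1
        hcop.of_mul_left_right.of_mul_right_right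
    · exact (IsCoprime.pow_iff (by norm_num) (by norm_num)).1
        hcop.of_mul_left_right.of_mul_right_right
    · exact (IsCoprime.pow_iff (by norm_num) (by norm_num)).1 hcop.of_mul_right_right
  rcases hcase with ⟨rfl, rfl⟩ | ⟨rfl, rfl⟩ | ⟨rfl, rfl⟩ | ⟨rfl, rfl⟩
  · have hp : (v ^ 2 - 125 * u ^ 2) * (v ^ 2 + 3 * u ^ 2) = m ^ (2 * 1) := by linear_combination hd
    have hmo : Odd (m ^ (2 * 1)) := Odd.pow ⟨m0, hm0⟩
    rw [← hp, Int.odd_mul] at hmo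
    have hm2 : 0 < m ^ (2 * 1) := by
      have : m ≠ 0 := by omega
      exact Even.pow_pos ⟨1, rfl⟩ this
    have h2 : 0 < v ^ 2 + 3 * u ^ 2 := by positivity
    have h1 : 0 < v ^ 2 - 125 * u ^ 2 := pos_of_mul_pos_left (hp ▸ hm2) h2.le
    have hcp : IsCoprime (v ^ 2 - 125 * u ^ 2) (v ^ 2 + 3 * u ^ 2) :=
      cop128 huv hmo.1 128 (-1) 1 3 125 dvd_rfl (by ring) (by ring)
    obtain ⟨s, t, hs, ht, e1, e2⟩ := pow_split 1 h1 h2 hcp hp
    rw [e1, e2] at hmo hcp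
    obtain ⟨i, j, hi, hj, hio, hij, rfl, e3⟩ := second_step (u := u) 4 hu ht
      ((Int.odd_pow' (by norm_num)).1 hmo.1) ((Int.odd_pow' (by norm_num)).1 hmo.2)
      ((IsCoprime.pow_iff (by norm_num) (by norm_num)).1 hcp) (by linear_combination e1 - e2)
    refine ih j.natAbs ?_ i j v rfl hj hio hij ?_
    · have : j < 2 * (i * j * v) := by nlinarith [mul_pos hi hv, mul_pos hj (mul_pos hi hv)]
      omega
    · rw [e3] at e2
      linear_combination e2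
  · have := congrArg (Int.cast : ℤ → ZMod 4) hd
    rw [hm0] at this
    push_cast at this
    have key : ∀ a u v : ZMod 4, 3 * v ^ 4 - 125 * u ^ 4 ≠ (2 * a + 1) ^ 2 + 122 * (u * v) ^ 2 := by
      decide
    exact key _ _ _ this
  · have hp : (v ^ 2 - u ^ 2) * (125 * v ^ 2 + 3 * u ^ 2) = m ^ (2 * 1) := by linear_combination hd
    have hmo : Odd (m ^ (2 * 1)) := Odd.pow ⟨m0, hm0⟩
    rw [← hp, Int.odd_mul] at hmo
    have hm2 : 0 < m ^ (2 * 1) := by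
      have : m ≠ 0 := by omega
      exact Even.pow_pos ⟨1, rfl⟩ this
    have h2 : 0 < 125 * v ^ 2 + 3 * u ^ 2 := by positivity
    have h1 : 0 < v ^ 2 - u ^ 2 := pos_of_mul_pos_left (hp ▸ hm2) h2.le
    have hcp : IsCoprime (v ^ 2 - u ^ 2) (125 * v ^ 2 + 3 * u ^ 2) :=
      cop128 huv hmo.1 128 (-125) 1 3 1 dvd_rfl (by ring) (by ring)
    obtain ⟨s, t, hs, ht, e1, e2⟩ := pow_split 1 h1 h2 hcp hp
    rw [e1, e2] at hmo
    obtain ⟨s0, rfl⟩ := (Int.odd_pow' (by norm_num)).1 hmo.1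
    have c1 := congrArg (Int.cast : ℤ → ZMod 8) e1
    have c2 := congrArg (Int.cast : ℤ → ZMod 8) e2
    push_cast at c1 c2
    have key : ∀ s t u v : ZMod 8, v ^ 2 - u ^ 2 = (2 * s + 1) ^ 2 →
      125 * v ^ 2 + 3 * u ^ 2 ≠ t ^ 2 := by decide
    exact key _ _ _ _ c1 c2
  · have := congrArg (Int.cast : ℤ → ZMod 4) hd
    rw [hm0] at this
    push_cast at this
    have key : ∀ a u v : ZMod 4, 375 * v ^ 4 - u ^ 4 ≠ (2 * a + 1) ^ 2 + 122 * (u * v) ^ 2 := by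
      decide
    exact key _ _ _ this

theorem caseB : ∀ (k : ℕ) (m n z : ℤ), n.natAbs = k → 0 < n → Odd m → Odd n → IsCoprime m n →
    z ^ 2 = 4 * m ^ 4 + 61 * m ^ 2 * n ^ 2 + 256 * n ^ 4 → False := by
  intro k
  induction k using Nat.strong_induction_on with
  | _ k ih =>
  intro m n z hk hn hm hno hc he
  wlog hz : 0 ≤ z generalizing z
  · exact this (-z) (by rw [← he]; ring) (by linarith)
  obtain ⟨m0, hm0⟩ := hm
  obtain ⟨B, hB⟩ : ∃ B, B = 4 * z + (8 * m ^ 2 + 61 * n ^ 2) := ⟨_, rfl⟩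
  obtain ⟨A, hA⟩ : ∃ A, A = 4 * z - (8 * m ^ 2 + 61 * n ^ 2) := ⟨_, rfl⟩
  have hAB : A * B = 375 * n ^ 4 := by rw [hA, hB]; linear_combination 16 * he
  have hd : B - A = (4 * m) ^ 2 + 122 * n ^ 2 := by rw [hA, hB]; ring
  have hB0 : 0 < B := by nlinarith [sq_nonneg m, sq_pos_of_pos hn]
  have hA0 : 0 < A := pos_of_mul_pos_left (by rw [hAB]; positivity) hB0.le
  have hcop : IsCoprime A B := by
    refine cop_step (fun p hp _ h1 h2 => ?_) hAB hd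
    have h4 : IsCoprime (4 * m) n := by
      refine IsCoprime.mul_left ?_ hc
      obtain ⟨n0, rfl⟩ := hno
      have : IsCoprime (2 : ℤ) (2 * n0 + 1) := ⟨-n0, 1, by ring⟩
      simpa using this.mul_left this
    exact hp.not_isUnit (h4.isUnit_of_dvd' h1 h2)
  obtain ⟨u, v, hu, hv, rfl, hcase⟩ := factor375 hA0 hB0 hn hcop hAB
  clear hA hB
  have huv : IsCoprime u v := by
    rcases hcase with ⟨rfl, rfl⟩ | ⟨rfl, rfl⟩ | ⟨rfl, rfl⟩ | ⟨rfl, rfl⟩
    · exact (IsCoprime.pow_iff (by norm_num) (by norm_num)).1 hcop.of_mul_left_right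
    · exact (IsCoprime.pow_iff (by norm_num) (by norm_num)).1
        hcop.of_mul_left_right.of_mul_right_right
    · exact (IsCoprime.pow_iff (by norm_num) (by norm_num)).1
        hcop.of_mul_left_right.of_mul_right_right
    · exact (IsCoprime.pow_iff (by norm_num) (by norm_num)).1 hcop.of_mul_right_right
  obtain ⟨⟨u0, hu0⟩, ⟨v0, hv0⟩⟩ := Int.odd_mul.1 hno
  rcases hcase with ⟨rfl, rfl⟩ | ⟨rfl, rfl⟩ | ⟨rfl, rfl⟩ | ⟨rfl, rfl⟩
  · obtain ⟨T, hT⟩ : ∃ T, v ^ 2 + 3 * u ^ 2 = 4 * T :=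
      ⟨v0 ^ 2 + v0 + 3 * u0 ^ 2 + 3 * u0 + 1, by rw [hu0, hv0]; ring⟩
    obtain ⟨S, hS⟩ : ∃ S, v ^ 2 - 125 * u ^ 2 = 4 * S := ⟨T - 32 * u ^ 2, by linarith⟩
    have hp : S * T = m ^ (2 * 1) := by
      have : (4 * S) * (4 * T) = 16 * m ^ (2 * 1) := by rw [← hS, ← hT]; linear_combination hd
      linarith
    have hmo : Odd (m ^ (2 * 1)) := Odd.pow ⟨m0, hm0⟩
    rw [← hp, Int.odd_mul] at hmo
    have hm2 : 0 < m ^ (2 * 1) := by
      have : m ≠ 0 := by omega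
      exact Even.pow_pos ⟨1, rfl⟩ this
    have h2 : 0 < T := by nlinarith [sq_nonneg u, sq_pos_of_pos hv]
    have h1 : 0 < S := pos_of_mul_pos_left (hp ▸ hm2) h2.le
    have hcp : IsCoprime S T :=
      cop128 huv hmo.1 32 (-1) 1 3 125 (by norm_num) (by linarith) (by linarith)
    obtain ⟨s, t, hs, ht, e1, e2⟩ := pow_split 1 h1 h2 hcp hp
    rw [e1, e2] at hmo hcp
    rw [e1] at hS
    rw [e2] at hT
    obtain ⟨i, j, hi, hj, hio, hij, rfl, e3⟩ := second_step (u := u) 2 hu ht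
      ((Int.odd_pow' (by norm_num)).1 hmo.1) ((Int.odd_pow' (by norm_num)).1 hmo.2)
      ((IsCoprime.pow_iff (by norm_num) (by norm_num)).1 hcp)
      (by have : 4 * (t ^ 2 - s ^ 2) = 4 * (4 * 2 ^ (2 + 1) * u ^ 2) := by linear_combination hS - hT
          linarith)
    have hv2 : v ^ 2 = 4 * i ^ 4 + 61 * i ^ 2 * j ^ 2 + 256 * j ^ 4 := by
      rw [e3] at hT
      linear_combination hT
    refine ih j.natAbs ?_ i j v rfl hj hio (Int.odd_mul.1 ⟨u0, hu0⟩).2 hij hv2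
    have hv1 : 2 ≤ v := by
      by_contra h
      have : v = 1 := by omega
      rw [this] at hv2
      have h1 : 0 < i ^ 4 := by positivity
      have h2 : 0 < j ^ 4 := by positivity
      have h3 : 0 < i ^ 2 * j ^ 2 := by positivity
      nlinarith
    have : j < i * j * v := by nlinarith [mul_pos hi hj]
    omega
  · have := congrArg (Int.cast : ℤ → ZMod 16) hd
    rw [hu0, hv0] at this
    push_cast at this
    have key : ∀ a u v : ZMod 16, 3 * (2 * v + 1) ^ 4 - 125 * (2 * u + 1) ^ 4 ≠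
      (4 * a) ^ 2 + 122 * ((2 * u + 1) * (2 * v + 1)) ^ 2 := by decide +kernel
    exact key _ _ _ this
  · have := congrArg (Int.cast : ℤ → ZMod 32) hd
    rw [hu0, hv0, hm0] at this
    push_cast at this
    have key : ∀ a u v : ZMod 32, 125 * (2 * v + 1) ^ 4 - 3 * (2 * u + 1) ^ 4 ≠
      (4 * (2 * a + 1)) ^ 2 + 122 * ((2 * u + 1) * (2 * v + 1)) ^ 2 := by decide +kernel
    exact key _ _ _ this
  · have := congrArg (Int.cast : ℤ → ZMod 16) hd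
    rw [hu0, hv0] at this
    push_cast at this
    have key : ∀ a u v : ZMod 16, 375 * (2 * v + 1) ^ 4 - (2 * u + 1) ^ 4 ≠
      (4 * a) ^ 2 + 122 * ((2 * u + 1) * (2 * v + 1)) ^ 2 := by decide +kernel
    exact key _ _ _ this

theorem halve {z y : ℤ} (h : z ^ 2 = 4 * y) : ∃ w, w ^ 2 = y := by
  obtain ⟨w, rfl⟩ : (2 : ℤ) ∣ z := Int.prime_two.dvd_of_dvd_pow (n := 2) ⟨2 * y, by rw [h]; ring⟩
  exact ⟨w, by linarith⟩

theorem mod8 (a b z : ℤ) (c d : ℤ) :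
    z ^ 2 ≠ 8 * c * (2 * a + 1) ^ 4 + 61 * (2 * a + 1) ^ 2 * (2 * b + 1) ^ 2 + 8 * d := by
  intro h
  have := congrArg (Int.cast : ℤ → ZMod 8) h
  push_cast at this
  have e8 : (8 : ZMod 8) = 0 := rfl
  rw [e8] at this
  have key : ∀ a b z : ZMod 8, z ^ 2 ≠ 61 * (2 * a + 1) ^ 2 * (2 * b + 1) ^ 2 := by decide
  exact key a b z (by simpa using this)

theorem int_main (m n z : ℤ) (hm : 0 < m) (hn : 0 < n) (hc : IsCoprime m n)
    (he : z ^ 2 = m ^ 4 + 61 * m ^ 2 * n ^ 2 + 1024 * n ^ 4) : False := by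
  rcases Int.even_or_odd' m with ⟨m1, rfl | h⟩
  swap
  · exact caseA _ m n z rfl hn ⟨m1, h⟩ hc he
  obtain ⟨n0, hn0⟩ : Odd n := by
    rcases Int.even_or_odd' n with ⟨n0, h | h⟩
    · exact absurd (hc.isUnit_of_dvd' ⟨m1, rfl⟩ ⟨n0, h⟩) Int.prime_two.not_isUnit
    · exact ⟨n0, h⟩
  have hc := hc.of_mul_left_right
  obtain ⟨z, he⟩ := halve (y := 4 * m1 ^ 4 + 61 * m1 ^ 2 * n ^ 2 + 256 * n ^ 4)
    (by rw [he]; ring)
  rcases Int.even_or_odd' m1 with ⟨m2, rfl | h⟩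
  swap
  · exact caseB _ m1 n z rfl hn ⟨m2, h⟩ ⟨n0, hn0⟩ hc he
  have hc := hc.of_mul_left_right
  obtain ⟨z, he⟩ := halve (y := 16 * m2 ^ 4 + 61 * m2 ^ 2 * n ^ 2 + 64 * n ^ 4)
    (by rw [he]; ring)
  rcases Int.even_or_odd' m2 with ⟨m3, rfl | rfl⟩
  swap
  · exact mod8 m3 n0 z 2 (8 * n ^ 4) (by rw [he, ← hn0]; ring)
  have hc := hc.of_mul_left_right
  obtain ⟨z, he⟩ := halve (y := 64 * m3 ^ 4 + 61 * m3 ^ 2 * n ^ 2 + 16 * n ^ 4)
    (by rw [he]; ring)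
  rcases Int.even_or_odd' m3 with ⟨m4, rfl | rfl⟩
  swap
  · exact mod8 m4 n0 z 8 (2 * n ^ 4) (by rw [he, ← hn0]; ring)
  have hc := hc.of_mul_left_right
  obtain ⟨z, he⟩ := halve (y := 256 * m4 ^ 4 + 61 * m4 ^ 2 * n ^ 2 + 4 * n ^ 4)
    (by rw [he]; ring)
  rcases Int.even_or_odd' m4 with ⟨m5, rfl | h⟩
  swap
  · exact caseB _ n m4 z rfl (by linarith) ⟨n0, hn0⟩ ⟨m5, h⟩ hc.symm (by rw [he]; ring)
  have hc := hc.of_mul_left_right
  obtain ⟨z, he⟩ := halve (y := 1024 * m5 ^ 4 + 61 * m5 ^ 2 * n ^ 2 + n ^ 4)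
    (by rw [he]; ring)
  exact caseA _ n m5 z rfl (by linarith) ⟨n0, hn0⟩ hc.symm (by rw [he]; ring)

theorem rat_main (r w : ℚ) (hr : r ≠ 0) (he : w ^ 2 = r ^ 4 + 61 * r ^ 2 + 1024) : False := by
  wlog h0 : 0 < r generalizing r
  · refine this (-r) (neg_ne_zero.2 hr) (by rw [he]; ring) ?_
    exact neg_pos.2 (lt_of_le_of_ne (not_lt.1 h0) hr)
  have hd : (r.den : ℚ) ≠ 0 := by exact_mod_cast r.den_nz
  have h1 : IsSquare (((r.num ^ 4 + 61 * r.num ^ 2 * (r.den : ℤ) ^ 2 + 1024 * (r.den : ℤ) ^ 4 : ℤ)) : ℚ) := by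
    refine ⟨w * r.den ^ 2, ?_⟩
    push_cast
    rw [← Rat.mul_den_eq_num r]
    linear_combination (-(r.den : ℚ) ^ 4) * he
  obtain ⟨z, hz⟩ := Rat.isSquare_intCast_iff.1 h1
  refine int_main r.num r.den z (Rat.num_pos.2 h0) (by exact_mod_cast r.den_pos) ?_
    (by rw [hz]; ring)
  exact Int.isCoprime_iff_gcd_eq_one.2 r.reduced

theorem disc_lemma (u v D : ℚ) (he : D ^ 2 = 4 * u ^ 4 + 61 * u ^ 2 * v ^ 2 + 256 * v ^ 4) :
    u = 0 ∨ v = 0 := by
  by_contra h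
  push Not at h
  obtain ⟨hu, hv⟩ := h
  refine rat_main (2 * u / v) (2 * D / v ^ 2) (by positivity) ?_
  field_simp
  linear_combination 4 * he

end Pool.Agent.P.MP_1ed635_nt
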