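import Mathlib
import Pool.Agent.P.MP_1ed635_nt.Defs
import Pool.Agent.P.MP_1ed635_nt.Descent

/-
The form `4 x^4 + 6 x^2 y^2 + y^4` has exactly two minimal representations over the rationals:
`3 x^4 + (x+y)^4/2 + (x-y)^4/2` and `3 y^4/4 + (2x+y)^4/8 + (2x-y)^4/8`.
-/

set_option autoImplicit false

namespace Pool.Agent.P.MP_1ed635_nt

open MvPolynomial

noncomputable abbrev KQ : Subfield ℂ := (algebraMap ℚ ℂ).fieldRange

noncomputable def F : MvPolynomial (Fin 2) ℂ := C 4 * X 0 ^ 4 + C 6 * (X 0 ^ 2 * X 1 ^ 2) + X 1 ^ 4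

noncomputable def term (l a b : ℚ) : MvPolynomial (Fin 2) ℂ :=
  C (l : ℂ) * (C (a : ℂ) * X 0 + C (b : ℂ) * X 1) ^ 4

theorem summand_iff {T : MvPolynomial (Fin 2) ℂ} :
    IsSummand KQ 4 T ↔ ∃ l a b : ℚ, T = term l a b := by
  constructor
  · rintro ⟨_, ⟨l, rfl⟩, _, ⟨a, rfl⟩, _, ⟨b, rfl⟩, rfl⟩
    exact ⟨l, a, b, rfl⟩
  · rintro ⟨l, a, b, rfl⟩
    exact ⟨_, ⟨l, rfl⟩, _, ⟨a, rfl⟩, _, ⟨b, rfl⟩, rfl⟩

theorem term_scale (l a b t : ℚ) : term l (t * a) (t * b) = term (l * t ^ 4) a b := by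
  unfold term
  push_cast
  simp only [map_mul, map_pow]
  ring

theorem term_zero : term 0 0 0 = 0 := by simp [term]

theorem term_eval (l a b : ℚ) (x : Fin 2 → ℂ) :
    eval x (term l a b) = l * (a * x 0 + b * x 1) ^ 4 := by simp [term]

attribute [irreducible] term

theorem moments {l1 a1 b1 l2 a2 b2 l3 a3 b3 : ℚ}
    (h : term l1 a1 b1 + (term l2 a2 b2 + term l3 a3 b3) = F) :
    l1 * a1 ^ 4 + l2 * a2 ^ 4 + l3 * a3 ^ 4 = 4 ∧
    l1 * a1 ^ 3 * b1 + l2 * a2 ^ 3 * b2 + l3 * a3 ^ 3 * b3 = 0 ∧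
    l1 * a1 ^ 2 * b1 ^ 2 + l2 * a2 ^ 2 * b2 ^ 2 + l3 * a3 ^ 2 * b3 ^ 2 = 1 ∧
    l1 * a1 * b1 ^ 3 + l2 * a2 * b2 ^ 3 + l3 * a3 * b3 ^ 3 = 0 ∧
    l1 * b1 ^ 4 + l2 * b2 ^ 4 + l3 * b3 ^ 4 = 1 := by
  have ev : ∀ x y : ℚ, l1 * (a1 * x + b1 * y) ^ 4 + (l2 * (a2 * x + b2 * y) ^ 4 +
      l3 * (a3 * x + b3 * y) ^ 4) = 4 * x ^ 4 + 6 * (x ^ 2 * y ^ 2) + y ^ 4 := by
    intro x y
    have := congrArg (eval ![(x : ℂ), (y : ℂ)]) h
    simp only [term_eval, F, map_add, map_mul, map_pow, eval_C, eval_X, Matrix.cons_val_zero,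
      Matrix.cons_val_one] at this
    exact_mod_cast this
  have e1 := ev 1 0
  have e2 := ev 0 1
  have e3 := ev 1 1
  have e4 := ev 1 (-1)
  have e5 := ev 2 1
  have e6 := ev 2 (-1)
  refine ⟨by linear_combination e1, ?_, ?_, ?_, by linear_combination e2⟩
  · linear_combination (1 / 48) * (e5 - e6) - (1 / 24) * (e3 - e4)
  · linear_combination (1 / 12) * (e3 + e4) - (1 / 6) * (e1 + e2)
  · linear_combination (1 / 6) * (e3 - e4) - (1 / 48) * (e5 - e6)

theorem hankel {l1 a1 b1 l2 a2 b2 l3 a3 b3 : ℚ}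
    (h : term l1 a1 b1 + (term l2 a2 b2 + term l3 a3 b3) = F) :
    l1 * l2 * l3 * ((a1 * b2 - a2 * b1) * (a1 * b3 - a3 * b1) * (a2 * b3 - a3 * b2)) ^ 2 = 3 := by
  obtain ⟨m0, m1, m2, m3, m4⟩ := moments h
  have key : ∀ c0 c1 c2 c3 c4 : ℚ, c0 = 4 → c1 = 0 → c2 = 1 → c3 = 0 → c4 = 1 →
      c0 * c2 * c4 + 2 * c1 * c2 * c3 - c2 ^ 3 - c0 * c3 ^ 2 - c1 ^ 2 * c4 = 3 := by
    rintro _ _ _ _ _ rfl rfl rfl rfl rfl
    norm_num
  have := key _ _ _ _ _ m0 m1 m2 m3 m4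
  linear_combination this

theorem three_le {S : Multiset (MvPolynomial (Fin 2) ℂ)} (h : IsRep KQ 4 F S) : 3 ≤ S.card := by
  by_contra hc
  obtain ⟨h1, h2⟩ := h
  have hc : S.card = 0 ∨ S.card = 1 ∨ S.card = 2 := by omega
  rcases hc with hc | hc | hc
  · rw [Multiset.card_eq_zero] at hc
    subst hc
    have := hankel (l1 := 0) (a1 := 0) (b1 := 0) (l2 := 0) (a2 := 0) (b2 := 0) (l3 := 0) (a3 := 0)
      (b3 := 0) (by rw [← h2, term_zero]; simp)
    norm_num at this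
  · obtain ⟨T, rfl⟩ := Multiset.card_eq_one.1 hc
    obtain ⟨l, a, b, rfl⟩ := summand_iff.1 (h1 T (by simp))
    have := hankel (l1 := l) (a1 := a) (b1 := b) (l2 := 0) (a2 := 0) (b2 := 0) (l3 := 0) (a3 := 0)
      (b3 := 0) (by rw [← h2, term_zero]; simp)
    norm_num at this
  · obtain ⟨T, T', rfl⟩ := Multiset.card_eq_two.1 hc
    obtain ⟨l, a, b, rfl⟩ := summand_iff.1 (h1 T (by simp))
    obtain ⟨l', a', b', rfl⟩ := summand_iff.1 (h1 T' (by simp))
    have := hankel (l1 := l) (a1 := a) (b1 := b) (l2 := l') (a2 := a') (b2 := b') (l3 := 0)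
      (a3 := 0) (b3 := 0) (by rw [← h2, term_zero]; simp)
    norm_num at this

noncomputable def S1 : Multiset (MvPolynomial (Fin 2) ℂ) :=
  {term 3 1 0, term (1 / 2) 1 1, term (1 / 2) 1 (-1)}

noncomputable def S2 : Multiset (MvPolynomial (Fin 2) ℂ) :=
  {term (3 / 4) 0 1, term (1 / 8) 2 1, term (1 / 8) (-2) 1}

theorem norm1 (l a b : ℚ) (h : b * (a - b) * (a + b) = 0) :
    ∃ m, term l a b = term m 1 0 ∨ term l a b = term m 1 1 ∨ term l a b = term m 1 (-1) := by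
  refine ⟨l * a ^ 4, ?_⟩
  rcases mul_eq_zero.1 h with h | h
  · rcases mul_eq_zero.1 h with h | h
    · left; rw [← term_scale, h]; simp
    · right; left; rw [← term_scale, ← sub_eq_zero.1 h]; simp
  · right; right; rw [← term_scale, eq_neg_of_add_eq_zero_right h]; simp

theorem norm2 (l a b : ℚ) (h : a * (a - 2 * b) * (a + 2 * b) = 0) :
    ∃ m, term l a b = term m 0 1 ∨ term l a b = term m 2 1 ∨ term l a b = term m (-2) 1 := by
  refine ⟨l * b ^ 4, ?_⟩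
  rcases mul_eq_zero.1 h with h | h
  · rcases mul_eq_zero.1 h with h | h
    · left; rw [← term_scale, h]; simp
    · right; left; rw [← term_scale, sub_eq_zero.1 h]; simp [mul_comm]
  · right; right; rw [← term_scale, eq_neg_of_add_eq_zero_left h]; simp [mul_comm]

theorem classify {l1 a1 b1 l2 a2 b2 l3 a3 b3 : ℚ}
    (h : term l1 a1 b1 + (term l2 a2 b2 + term l3 a3 b3) = F) :
    ({term l1 a1 b1, term l2 a2 b2, term l3 a3 b3} : Multiset _) = S1 ∨
    ({term l1 a1 b1, term l2 a2 b2, term l3 a3 b3} : Multiset _) = S2 := by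
  obtain ⟨m0, m1, m2, m3, m4⟩ := moments h
  have hk := hankel h
  obtain ⟨h0, e0⟩ : ∃ x, x = b1 * b2 * b3 := ⟨_, rfl⟩
  obtain ⟨h1, e1⟩ : ∃ x, x = -(a1 * b2 * b3 + b1 * a2 * b3 + b1 * b2 * a3) := ⟨_, rfl⟩
  obtain ⟨h2, e2⟩ : ∃ x, x = a1 * a2 * b3 + a1 * b2 * a3 + b1 * a2 * a3 := ⟨_, rfl⟩
  obtain ⟨h3, e3⟩ : ∃ x, x = -(a1 * a2 * a3) := ⟨_, rfl⟩
  have r1 : h2 = -4 * h0 := by
    rw [e0, e2]
    linear_combination (-(b1 * b2 * b3)) * m0 + (a1 * b2 * b3 + b1 * a2 * b3 + b1 * b2 * a3) * m1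
      - (a1 * a2 * b3 + a1 * b2 * a3 + b1 * a2 * a3) * m2 + (a1 * a2 * a3) * m3
  have r2 : h3 = -h1 := by
    rw [e1, e3]
    linear_combination (-(b1 * b2 * b3)) * m1 + (a1 * b2 * b3 + b1 * a2 * b3 + b1 * b2 * a3) * m2
      - (a1 * a2 * b3 + a1 * b2 * a3 + b1 * a2 * a3) * m3 + (a1 * a2 * a3) * m4
  obtain ⟨D, eD⟩ : ∃ x, x = (a1 * b2 - a2 * b1) * (a1 * b3 - a3 * b1) * (a2 * b3 - a3 * b2) :=
    ⟨_, rfl⟩
  have hdisc : D ^ 2 = h1 ^ 2 * h2 ^ 2 - 4 * h0 * h2 ^ 3 - 4 * h1 ^ 3 * h3 - 27 * h0 ^ 2 * h3 ^ 2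
      + 18 * h0 * h1 * h2 * h3 := by
    rw [eD, e0, e1, e2, e3]; ring
  have hD : D ≠ 0 := by
    rintro rfl
    rw [← eD] at hk
    norm_num at hk
  have root1 : h0 * a1 ^ 3 + h1 * a1 ^ 2 * b1 + h2 * a1 * b1 ^ 2 + h3 * b1 ^ 3 = 0 := by
    rw [e0, e1, e2, e3]; ring
  have root2 : h0 * a2 ^ 3 + h1 * a2 ^ 2 * b2 + h2 * a2 * b2 ^ 2 + h3 * b2 ^ 3 = 0 := by
    rw [e0, e1, e2, e3]; ring
  have root3 : h0 * a3 ^ 3 + h1 * a3 ^ 2 * b3 + h2 * a3 * b3 ^ 2 + h3 * b3 ^ 3 = 0 := by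
    rw [e0, e1, e2, e3]; ring
  clear e0 e1 e2 e3 eD hk m0 m1 m2 m3 m4
  subst r1 r2
  rcases disc_lemma h1 h0 D (by rw [hdisc]; ring) with hz | hz
  · right
    subst hz
    have hne : h0 ≠ 0 := by
      rintro rfl
      exact hD (pow_eq_zero_iff (n := 2) (by norm_num) |>.1 (by rw [hdisc]; ring))
    obtain ⟨n1, g1⟩ := norm2 l1 a1 b1 (mul_left_cancel₀ hne (by linear_combination root1))
    obtain ⟨n2, g2⟩ := norm2 l2 a2 b2 (mul_left_cancel₀ hne (by linear_combination root2))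
    obtain ⟨n3, g3⟩ := norm2 l3 a3 b3 (mul_left_cancel₀ hne (by linear_combination root3))
    rcases g1 with g1 | g1 | g1 <;> rcases g2 with g2 | g2 | g2 <;> rcases g3 with g3 | g3 | g3 <;>
      rw [g1, g2, g3] at h ⊢ <;> obtain ⟨m0, m1, m2, m3, m4⟩ := moments h <;>
      first
      | (exfalso; linarith)
      | (have en1 : n1 = 3 / 4 := by linarith
         have en2 : n2 = 1 / 8 := by linarith
         have en3 : n3 = 1 / 8 := by linarith
         simp only [en1, en2, en3, S2, Multiset.insert_eq_cons, ← Multiset.singleton_add] <;> abel)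
      | (have en1 : n1 = 1 / 8 := by linarith
         have en2 : n2 = 3 / 4 := by linarith
         have en3 : n3 = 1 / 8 := by linarith
         simp only [en1, en2, en3, S2, Multiset.insert_eq_cons, ← Multiset.singleton_add] <;> abel)
      | (have en1 : n1 = 1 / 8 := by linarith
         have en2 : n2 = 1 / 8 := by linarith
         have en3 : n3 = 3 / 4 := by linarith
         simp only [en1, en2, en3, S2, Multiset.insert_eq_cons, ← Multiset.singleton_add] <;> abel)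
  · left
    subst hz
    have hne : h1 ≠ 0 := by
      rintro rfl
      exact hD (pow_eq_zero_iff (n := 2) (by norm_num) |>.1 (by rw [hdisc]; ring))
    obtain ⟨n1, g1⟩ := norm1 l1 a1 b1 (mul_left_cancel₀ hne (by linear_combination root1))
    obtain ⟨n2, g2⟩ := norm1 l2 a2 b2 (mul_left_cancel₀ hne (by linear_combination root2))
    obtain ⟨n3, g3⟩ := norm1 l3 a3 b3 (mul_left_cancel₀ hne (by linear_combination root3))
    rcases g1 with g1 | g1 | g1 <;> rcases g2 with g2 | g2 | g2 <;> rcases g3 with g3 | g3 | g3 <;>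
      rw [g1, g2, g3] at h ⊢ <;> obtain ⟨m0, m1, m2, m3, m4⟩ := moments h <;>
      first
      | (exfalso; linarith)
      | (have en1 : n1 = 3 := by linarith
         have en2 : n2 = 1 / 2 := by linarith
         have en3 : n3 = 1 / 2 := by linarith
         simp only [en1, en2, en3, S1, Multiset.insert_eq_cons, ← Multiset.singleton_add] <;> abel)
      | (have en1 : n1 = 1 / 2 := by linarith
         have en2 : n2 = 3 := by linarith
         have en3 : n3 = 1 / 2 := by linarith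
         simp only [en1, en2, en3, S1, Multiset.insert_eq_cons, ← Multiset.singleton_add] <;> abel)
      | (have en1 : n1 = 1 / 2 := by linarith
         have en2 : n2 = 1 / 2 := by linarith
         have en3 : n3 = 3 := by linarith
         simp only [en1, en2, en3, S1, Multiset.insert_eq_cons, ← Multiset.singleton_add] <;> abel)

theorem rep1 : IsRep KQ 4 F S1 := by
  refine ⟨fun T hT => summand_iff.2 ?_, ?_⟩
  · simp only [S1, Multiset.insert_eq_cons, Multiset.mem_cons, Multiset.mem_singleton] at hT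
    rcases hT with rfl | rfl | rfl <;> exact ⟨_, _, _, rfl⟩
  · apply MvPolynomial.funext
    intro x
    simp [S1, term_eval, F]
    ring

theorem rep2 : IsRep KQ 4 F S2 := by
  refine ⟨fun T hT => summand_iff.2 ?_, ?_⟩
  · simp only [S2, Multiset.insert_eq_cons, Multiset.mem_cons, Multiset.mem_singleton] at hT
    rcases hT with rfl | rfl | rfl <;> exact ⟨_, _, _, rfl⟩
  · apply MvPolynomial.funext
    intro x
    simp [S2, term_eval, F]
    ring

theorem S1_ne_S2 : S1 ≠ S2 := by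
  intro h
  have : term 3 1 0 ∈ S2 := by rw [← h]; simp [S1]
  simp only [S2, Multiset.insert_eq_cons, Multiset.mem_cons, Multiset.mem_singleton] at this
  rcases this with h | h | h <;>
  · have := congrArg (eval ![(0 : ℂ), 1]) h
    simp [term_eval] at this
    all_goals norm_num at this

theorem minReps : {S | IsMinRep KQ 4 F S} = {S1, S2} := by
  ext S
  simp only [Set.mem_ofPred_eq, Set.mem_insert_iff, Set.mem_singleton_iff]
  constructor
  · rintro ⟨hS, hmin⟩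
    have h3 : S.card = 3 := le_antisymm (hmin S1 rep1) (three_le hS)
    obtain ⟨T1, T2, T3, rfl⟩ := Multiset.card_eq_three.1 h3
    obtain ⟨l1, a1, b1, rfl⟩ := summand_iff.1 (hS.1 T1 (by simp))
    obtain ⟨l2, a2, b2, rfl⟩ := summand_iff.1 (hS.1 T2 (by simp))
    obtain ⟨l3, a3, b3, rfl⟩ := summand_iff.1 (hS.1 T3 (by simp))
    exact classify (by simpa using hS.2)
  · rintro (rfl | rfl)
    · exact ⟨rep1, fun S' h => three_le h⟩
    · exact ⟨rep2, fun S' h => three_le h⟩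

theorem F_homog : F.IsHomogeneous 4 := by
  refine IsHomogeneous.add (IsHomogeneous.add ?_ ?_) (isHomogeneous_X_pow _ _)
  · exact (isHomogeneous_X_pow _ _).C_mul _
  · exact ((isHomogeneous_X_pow (0 : Fin 2) 2).mul (isHomogeneous_X_pow (1 : Fin 2) 2)).C_mul _

theorem F_coeff (m : Fin 2 →₀ ℕ) : coeff m F ∈ KQ := by
  have : F = map (algebraMap ℚ ℂ) (C 4 * X 0 ^ 4 + C 6 * (X 0 ^ 2 * X 1 ^ 2) + X 1 ^ 4) := by
    simp [F]
  rw [this, coeff_map]
  exact ⟨_, rfl⟩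

end Pool.Agent.P.MP_1ed635_nt
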